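import Mathlib
import Pool.Agent.X34.E.E37
import Pool.Agent.X34.E.E4

set_option autoImplicit false

/-!
# Quotients `⌊(n - p) / m⌋` in an arbitrary set, `p` a prime followed by a bounded gap

The problem asks for a prime `p < n` such that `q = ⌊(n - p) / m⌋` is a prime with an additional property
(`p_q - q + 1` or `q² - 2` prime). Here `q` lies in an arbitrary set `K` with at least `t / (log t)^B` elements up to `t`,
`n` is in a given residue class modulo `m`, and `p` is moreover followed by a bounded gap.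

Proof: the count of the right order for 45 forms (engine E of helper34, files `Pool.Agent.X34.E`, which uses the starting
library's theorem for 45 forms) and the argument of Romanoff, with the moments of the singular series over the
differences of a fairly dense set (starting library, `Pool.Agent.TH685.TI`, here for 45 shifts).
-/

namespace Pool.Agent.Results.MP_4011c3_nt.BoundedGapsQuotients

/-- `p` and `p + h` are consecutive primes -/
def Consecutive (p h : ℕ) : Prop := p.Prime ∧ (p + h).Prime ∧ ∀ m : ℕ, p < m → m < p + h → ¬ m.Prime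

/-- the number of the elements of `K` in `[1, t]` -/
noncomputable def count (K : Set ℕ) (t : ℕ) : ℕ := Set.ncard {k : ℕ | 1 ≤ k ∧ k ≤ t ∧ k ∈ K}

/-- the number of the `n ≤ x`, `n ≡ s (mod m)`, for which there is a prime `p < n`, followed by the next prime at a
distance at most `212 m`, such that `q = ⌊(n - p) / m⌋` is in `K` and `m q ≤ z` -/
noncomputable def represented (m s : ℕ) (K : Set ℕ) (z : ℝ) (x : ℕ) : ℕ :=
  Set.ncard {n : ℕ | n ≤ x ∧ n ≡ s [MOD m] ∧ ∃ p : ℕ, p < n ∧ (n - p) / m ∈ K ∧
    ((m * ((n - p) / m) : ℕ) : ℝ) ≤ z ∧ ∃ h : ℕ, 1 ≤ h ∧ h ≤ 212 * m ∧ Consecutive p h}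

/-- For every `m ≥ 1` there is `e` such that for every residue class `s` modulo `m` and every set `K` with at least
`t / (log t)^B` elements in `[1, t]` for all large `t`, for some `c > 0` and all large `x` at least
`c x / (log log log log x)^e` of the `n ≤ x` with `n ≡ s (mod m)` have a prime `p < n`, followed by the next prime at a
distance at most `212 m`, such that `q = ⌊(n - p) / m⌋` is in `K` and `m q ≤ (log x)^45 (log log x)^(B + 3)`. -/
theorem result : ∀ m : ℕ, 1 ≤ m → ∃ e : ℕ, ∀ (s B : ℕ) (K : Set ℕ),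
    (∀ᶠ t : ℕ in Filter.atTop, (t : ℝ) / Real.log t ^ B ≤ count K t) →
      ∃ c : ℝ, 0 < c ∧ ∀ᶠ x : ℕ in Filter.atTop,
        c * x / Real.log (Real.log (Real.log (Real.log x))) ^ e ≤
          represented m s K (Real.log x ^ 45 * Real.log (Real.log x) ^ (B + 3)) x := by
  classical
  intro m hm
  have hE := Pool.Agent.X34.E.dhl45R
  obtain ⟨e, h⟩ := Pool.Agent.X34.E.sums_set hE (2 * m) 1 (by omega) (by simp) (dvd_mul_right 2 m)
  have hcnt : ∀ (K : Set ℕ) (t : ℕ), Pool.Agent.X34.E.cntK K t = count K t := by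
    intro K t
    unfold Pool.Agent.X34.E.cntK count
    rw [← Set.ncard_coe_finset]
    congr 1
    ext m
    simp only [Finset.coe_filter, Finset.mem_Icc, Set.mem_ofPred_eq, and_assoc]
  refine ⟨e, fun s B K hK => ?_⟩
  have hd : Pool.Agent.X34.E.Dense B K := by
    unfold Pool.Agent.X34.E.Dense
    simp only [hcnt]
    exact hK
  -- `r < m` with `1 + r ≡ s`
  obtain ⟨r, hr⟩ : ∃ r : ℕ, r = (s + m - 1) % m := ⟨_, rfl⟩
  have hrm : r < m := by rw [hr]; exact Nat.mod_lt _ (by omega)
  have hrs : 1 + r ≡ s [MOD m] := by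
    have h1 : r ≡ s + m - 1 [MOD m] := by rw [hr]; exact Nat.mod_modEq _ _
    have h2 : 1 + r ≡ 1 + (s + m - 1) [MOD m] := h1.add_left 1
    have h3 : 1 + (s + m - 1) = s + m := by omega
    rw [h3] at h2
    exact h2.trans (Nat.add_modEq_right)
  have hd2 := (hd.mul m hm).add r
  obtain ⟨c, hc, h1⟩ := h (B + 1 + 1) _ hd2
  refine ⟨c, hc, ?_⟩
  filter_upwards [h1] with x hx
  refine hx.trans ?_
  unfold represented
  rw [Nat.cast_le, ← Set.ncard_coe_finset]
  apply Set.ncard_le_ncard
  · intro N hN
    rw [Finset.mem_coe, Finset.mem_filter, Finset.mem_Icc] at hN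
    obtain ⟨⟨h5, h6⟩, p, k, h7, h8, ⟨k', ⟨q, hq, rfl⟩, rfl⟩, h10, j, hk1, hk2, h11, h12⟩ := hN
    have e0 : N - p = m * q + r := by omega
    have e1 : (N - p) / m = q := by
      rw [e0, Nat.mul_add_div (by omega), Nat.div_eq_of_lt hrm, add_zero]
    refine ⟨h6, ?_, p, by omega, by rw [e1]; exact hq, ?_, j * (2 * m), Nat.mul_pos hk1 (by omega), ?_, h12⟩
    · have h13 : p ≡ 1 [MOD m] := h11.of_mul_left 2
      have h14 : p + (m * q + r) ≡ 1 + (0 + r) [MOD m] :=
        h13.add (((Nat.modEq_zero_iff_dvd).2 (dvd_mul_right m q)).add_right r)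
      rw [zero_add] at h14
      rw [← h7]
      exact h14.trans hrs
    · rw [e1]
      push_cast at h10 ⊢
      have : (0 : ℝ) ≤ r := Nat.cast_nonneg _
      linarith
    · calc j * (2 * m) ≤ 106 * (2 * m) := Nat.mul_le_mul_right _ hk2
        _ = 212 * m := by ring
  · exact (Set.finite_Iic x).subset fun m hm => hm.1

end Pool.Agent.Results.MP_4011c3_nt.BoundedGapsQuotients
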