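import Pool.Agent.X15.SysS.Iso

/-!
# Floored quotients `q` with `p`, `q` and `q ^ 2 + t` prime, for most pairs `(n, t)`

For every `m ≥ 1` and for all but an arbitrarily small proportion of the pairs `(n, t)`, `n ≤ x`, `t ≤ x ^ 2`, without
local obstruction, there are at least `c x / (log x) ^ 3` primes `q = ⌊(n - p) / m⌋` (`p < n` prime) with `q ^ 2 + t`
prime; moreover the primes `q` can be taken isolated: no other prime is at distance at most `Λ log q` from `q`.

The theorem rests on the library development Pool.Agent.TH882, extended to polynomials with signs in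
Pool.Agent.X15.SysS.
-/

set_option autoImplicit false

open Finset Filter Topology

namespace Pool.Agent.Results.MP_4011c3_nt.MostPairs

/-- `q` is a prime, and no other prime is at distance at most `R` from `q`. -/
def IsolatedPrime (R : ℝ) (q : ℕ) : Prop := q.Prime ∧ ∀ l : ℕ, l.Prime → |(l : ℝ) - q| ≤ R → l = q

/-- For some `0 ≤ s < m` there is no local obstruction: for every prime `l` there is an integer `y` such that `l` divides
none of `y`, `n - s - m y`, `y ^ 2 + t`. -/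
def Possible (m n t : ℕ) : Prop := ∃ s < m, ∀ l : ℕ, l.Prime → ∃ y : ℤ, ¬ (l : ℤ) ∣ y ∧
  ¬ (l : ℤ) ∣ (n : ℤ) - s - m * y ∧ ¬ (l : ℤ) ∣ y ^ 2 + t

/-- The primes `q` without another prime at distance at most `Λ log q` such that `q = ⌊(n - p) / m⌋` for a prime
`p < n`, and `q ^ 2 + t` is prime. -/
def quotients (m : ℕ) (Λ : ℝ) (n t : ℕ) : Set ℕ :=
  {q : ℕ | IsolatedPrime (Λ * Real.log q) q ∧ (∃ p : ℕ, p.Prime ∧ p < n ∧ (n - p) / m = q) ∧
    (q ^ 2 + t).Prime}

/-- The pairs `1 ≤ n ≤ x`, `1 ≤ t ≤ x ^ 2` without local obstruction and with fewer than `c x / (log x) ^ 3` such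
primes `q`. -/
def exceptions (m : ℕ) (Λ c : ℝ) (x : ℕ) : Set (ℕ × ℕ) :=
  {u : ℕ × ℕ | (1 ≤ u.1 ∧ u.1 ≤ x) ∧ (1 ≤ u.2 ∧ u.2 ≤ x ^ 2) ∧ Possible m u.1 u.2 ∧
    ((quotients m Λ u.1 u.2).ncard : ℝ) < c * (x / Real.log x ^ 3)}

lemma quotients_finite (m : ℕ) (Λ : ℝ) (n t : ℕ) : (quotients m Λ n t).Finite := by
  apply (Set.finite_Iic n).subset
  rintro q ⟨-, ⟨p, -, -, h⟩, -⟩
  rw [Set.mem_Iic, ← h]
  exact (Nat.div_le_self _ _).trans (Nat.sub_le _ _)

/-- **Floored quotients for most pairs.** Let `m ≥ 1`, `Λ > 0`, `κ > 0`. There are `c > 0` and `x₀` such that for all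
`x ≥ x₀` and for all pairs `(n, t)` of integers `1 ≤ n ≤ x`, `1 ≤ t ≤ x ^ 2` without local obstruction, with at most
`κ x ^ 3` exceptions, there are at least `c x / (log x) ^ 3` primes `q`, isolated at the distance `Λ log q`, such that
`q = ⌊(n - p) / m⌋` for a prime `p < n` and `q ^ 2 + t` is prime. -/
theorem result (m : ℕ) (hm : 1 ≤ m) (Λ κ : ℝ) (hΛ : 0 < Λ) (hκ : 0 < κ) :
    ∃ c : ℝ, 0 < c ∧ ∃ x₀ : ℕ, ∀ x : ℕ, x₀ ≤ x →
      ((exceptions m Λ c x).ncard : ℝ) ≤ κ * (x : ℝ) ^ 3 := by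
  classical
  have hm0 : (0 : ℝ) < m := by exact_mod_cast hm
  set g : Fin 2 → Polynomial ℤ := ![Polynomial.C (m : ℤ) * Polynomial.X, Polynomial.X ^ 2] with hg
  set σ : Fin 2 → ℤ := ![-1, 1] with hσd
  have hmz : (m : ℤ) ≠ 0 := by
    have : m ≠ 0 := by omega
    exact_mod_cast this
  have hg0 : (g 0).natDegree = 1 := Polynomial.natDegree_C_mul_X _ hmz
  have hg1 : (g 1).natDegree = 2 := Polynomial.natDegree_X_pow 2
  have he0 : ∀ y : ℤ, (g 0).eval y = m * y := by
    intro y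
    rw [hg]
    simp
  have he1 : ∀ y : ℤ, (g 1).eval y = y ^ 2 := by
    intro y
    rw [hg]
    simp
  have hs0 : σ 0 = -1 := rfl
  have hs1 : σ 1 = 1 := rfl
  obtain ⟨c, hc, x₀, h⟩ := Pool.Agent.X15.SysS.iso_sys σ
    (Fin.forall_fin_two.2 ⟨Or.inr rfl, Or.inl rfl⟩) g
    (Fin.forall_fin_two.2 ⟨by rw [hg0], by rw [hg1]; norm_num⟩)
    (Fin.forall_fin_two.2 ⟨by
      have : (g 0).leadingCoeff = m := Polynomial.leadingCoeff_C_mul_X _
      rw [this]
      omega, by
      have : (g 1).leadingCoeff = 1 := Polynomial.leadingCoeff_X_pow 2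
      rw [this]
      norm_num⟩) Λ hΛ 1 (κ / (2 * m)) (by positivity)
  refine ⟨c, hc, max x₀ (⌈2 * (m : ℝ) / κ⌉₊ + 1), fun x hx => ?_⟩
  have hx0 : x₀ ≤ x := (le_max_left _ _).trans hx
  have hx1 : 2 * (m : ℝ) / κ ≤ x := by
    have e1 : ⌈2 * (m : ℝ) / κ⌉₊ ≤ x := by
      have := (le_max_right _ _).trans hx
      omega
    exact (Nat.le_ceil _).trans (by exact_mod_cast e1)
  have h1 := h x hx0
  have e0 : ∏ j, (x : ℝ) ^ (g j).natDegree = (x : ℝ) ^ 3 := by
    rw [Fin.prod_univ_two, hg0, hg1]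
    ring
  rw [e0] at h1
  set F := (Fintype.piFinset (fun j : Fin 2 => Icc 1 (1 * x ^ (g j).natDegree))).filter
        (fun k => Pool.Agent.TH882.KS.LocV σ g k ∧ ((((Icc 1 x).filter (fun n : ℕ =>
          Pool.Agent.X15.SysS.Isolated (Λ * Real.log n) n ∧
            ∀ j, ((k j : ℤ) + σ j * (g j).eval (n : ℤ)).toNat.Prime)).card : ℕ) : ℝ) <
          c * (x / Real.log x ^ (2 + 1))) with hF
  set Ef := ((Icc 1 x) ×ˢ (Icc 1 (x ^ 2))).filter (fun u => u ∈ exceptions m Λ c x) with hEf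
  have hEE : exceptions m Λ c x = ↑Ef := by
    ext u
    rw [mem_coe, hEf, mem_filter, mem_product, mem_Icc, mem_Icc]
    exact ⟨fun hu => ⟨⟨hu.1, hu.2.1⟩, hu⟩, fun hu => hu.2⟩
  rw [hEE, Set.ncard_coe_finset]
  have hsub : Ef ⊆ ((Icc 1 m) ×ˢ (Icc 1 (x ^ 2))) ∪ (range m).biUnion
      (fun s => Ef.filter (fun u => m < u.1 ∧ ![u.1 - s, u.2] ∈ F)) := by
    intro u hu
    have hu0 := hu
    rw [hEf, mem_filter, mem_product, mem_Icc, mem_Icc] at hu
    obtain ⟨⟨hu1, hu2⟩, hu3⟩ := hu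
    rw [mem_union]
    by_cases hum : u.1 ≤ m
    · left
      rw [mem_product, mem_Icc, mem_Icc]
      exact ⟨⟨hu1.1, hum⟩, hu2⟩
    · right
      obtain ⟨-, -, ⟨s, hs, hloc⟩, hcount⟩ := hu3
      rw [mem_biUnion]
      refine ⟨s, mem_range.2 hs, ?_⟩
      rw [mem_filter]
      refine ⟨hu0, by omega, ?_⟩
      have hcast : ((u.1 - s : ℕ) : ℤ) = (u.1 : ℤ) - s := by
        rw [Nat.cast_sub (by omega)]
      rw [hF, mem_filter, Fintype.mem_piFinset]
      refine ⟨Fin.forall_fin_two.2 ⟨?_, ?_⟩, ?_, lt_of_le_of_lt ?_ hcount⟩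
      · rw [mem_Icc, hg0]
        show 1 ≤ u.1 - s ∧ u.1 - s ≤ 1 * x ^ 1
        rw [pow_one, one_mul]
        omega
      · rw [mem_Icc, hg1]
        show 1 ≤ u.2 ∧ u.2 ≤ 1 * x ^ 2
        omega
      · intro l hl
        obtain ⟨y, hy1, hy2, hy3⟩ := hloc l hl
        refine ⟨y, hy1, Fin.forall_fin_two.2 ⟨fun hd => hy2 ?_, fun hd => hy3 ?_⟩⟩
        · rw [hs0, he0] at hd
          have e1 : ((![u.1 - s, u.2] (0 : Fin 2) : ℕ) : ℤ) = (u.1 : ℤ) - s := hcast
          rw [e1] at hd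
          have e2 : (u.1 : ℤ) - s - m * y = (u.1 : ℤ) - s + -1 * (m * y) := by ring
          rw [e2]
          exact hd
        · rw [hs1, he1] at hd
          have e1 : ((![u.1 - s, u.2] (1 : Fin 2) : ℕ) : ℤ) = (u.2 : ℤ) := rfl
          rw [e1] at hd
          have e2 : y ^ 2 + (u.2 : ℤ) = (u.2 : ℤ) + 1 * y ^ 2 := by ring
          rw [e2]
          exact hd
      · apply Nat.cast_le.2
        rw [← Set.ncard_coe_finset]
        apply Set.ncard_le_ncard _ (quotients_finite m Λ u.1 u.2)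
        intro q hq
        rw [mem_coe, mem_filter, mem_Icc] at hq
        obtain ⟨⟨hq1, -⟩, hq3, hq4⟩ := hq
        have h5 := hq4 0
        have h6 := hq4 1
        rw [hs0, he0] at h5
        rw [hs1, he1] at h6
        have e1 : ((![u.1 - s, u.2] (0 : Fin 2) : ℕ) : ℤ) = (u.1 : ℤ) - s := hcast
        have e2 : ((![u.1 - s, u.2] (1 : Fin 2) : ℕ) : ℤ) = (u.2 : ℤ) := rfl
        rw [e1] at h5
        rw [e2] at h6
        refine ⟨hq3, ⟨_, h5, ?_, ?_⟩, ?_⟩
        · have hp := h5.pos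
          have hmq : (0 : ℤ) < (m : ℤ) * q := by
            have : 0 < m * q := Nat.mul_pos hm hq1
            exact_mod_cast this
          have hs' : (0 : ℤ) ≤ s := by positivity
          omega
        · have hp := h5.pos
          have e3 : u.1 - ((u.1 : ℤ) - s + -1 * (m * q)).toNat = s + m * q := by
            have hmq : (0 : ℤ) ≤ (m : ℤ) * q := by positivity
            have : ((m * q : ℕ) : ℤ) = (m : ℤ) * q := by push_cast; ring
            omega
          rw [e3, Nat.add_mul_div_left _ _ hm, Nat.div_eq_of_lt hs, zero_add]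
        · have e3 : ((u.2 : ℤ) + 1 * (q : ℤ) ^ 2).toNat = q ^ 2 + u.2 := by
            have : ((q ^ 2 : ℕ) : ℤ) = (q : ℤ) ^ 2 := by push_cast; ring
            omega
          rwa [e3] at h6
  have hcard : Ef.card ≤ m * x ^ 2 + m * F.card := by
    refine (card_le_card hsub).trans ((card_union_le _ _).trans ?_)
    apply Nat.add_le_add
    · rw [card_product, Nat.card_Icc, Nat.card_Icc]
      apply le_of_eq
      rw [Nat.add_sub_cancel, Nat.add_sub_cancel]
    · refine card_biUnion_le.trans ?_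
      calc ∑ s ∈ range m, (Ef.filter (fun u => m < u.1 ∧ ![u.1 - s, u.2] ∈ F)).card ≤
          ∑ _s ∈ range m, F.card := by
            apply sum_le_sum
            intro s hs
            rw [mem_range] at hs
            apply card_le_card_of_injOn (fun u : ℕ × ℕ => ![u.1 - s, u.2])
            · intro u hu
              rw [mem_coe, mem_filter] at hu
              exact hu.2.2
            · rintro ⟨a, b⟩ hu ⟨a', b'⟩ hu' huu
              rw [mem_coe, mem_filter] at hu hu'
              have h5 := congrFun huu 0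
              have h6 := congrFun huu 1
              have h7 : a - s = a' - s := h5
              have h8 : b = b' := h6
              have h9 : m < a := hu.2.1
              have h10 : m < a' := hu'.2.1
              have h11 : a = a' := by omega
              rw [h11, h8]
        _ = m * F.card := by rw [sum_const, card_range, smul_eq_mul]
  have hcard' : (Ef.card : ℝ) ≤ m * (x : ℝ) ^ 2 + m * F.card := by exact_mod_cast hcard
  have h2 : (m : ℝ) * F.card ≤ κ / 2 * (x : ℝ) ^ 3 := by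
    calc (m : ℝ) * F.card ≤ m * (κ / (2 * m) * (x : ℝ) ^ 3) := mul_le_mul_of_nonneg_left h1 hm0.le
      _ = _ := by field_simp
  have h3 : (m : ℝ) * (x : ℝ) ^ 2 ≤ κ / 2 * (x : ℝ) ^ 3 := by
    rw [div_le_iff₀ hκ] at hx1
    have : 0 ≤ (x : ℝ) ^ 2 := by positivity
    nlinarith
  linarith

end Pool.Agent.Results.MP_4011c3_nt.MostPairs
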