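import Pool.Agent.X32.Uni.Quo

/-!
# Chen's theorem for the floored quotients `q = ⌊(n - p) / m⌋` with `q ^ 2 - 2` almost prime, all admissible pairs

Let `M` be given. For EVERY admissible pair `(m, n)` with `m ≤ M`, `n` large, there is an offset `r < m` without local
obstruction (`n - r` prime to `m`, `n - r + m` odd), and for every such offset every interval `(A, B]` with
`m B ≤ n - r`, `B - A ≥ θ n` contains at least `κ (B - A) V` integers `q` such that for `p = n - r - m q` one has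
`p < n`, `⌊(n - p) / m⌋ = q`, and
* `q` is prime, `p` is a product of at most two primes `> n ^ (1/9)`, and `q ^ 2 - 2` is a product of at most `2 t`
  primes `> n ^ (1/t)` (version 0), and likewise
* `p` is prime, `q` is a product of at most two primes `> n ^ (1/9)`, and `q ^ 2 - 2` is a product of at most `2 t`
  primes `> n ^ (1/t)` (version 1).
Here `V` is the product of `1 - ω(ℓ) / ℓ` over the primes `ℓ ≤ n`, `ω(ℓ)` the number of the zeros of
`x (n - r - m x) (x ^ 2 - 2)` modulo `ℓ`, so `(B - A) V` is the conjectured order of the number of the `q` for which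
all of `p`, `q`, `q ^ 2 - 2` are prime. For every colouring almost all of these `q` are covered by pairwise disjoint
monochromatic progressions of `s` such `q` with differences at most a power of `log n`.

The case `m = 1` (without the coverings) is `ChenEveryEven`.
-/

set_option autoImplicit false

namespace Pool.Agent.Results.MP_4011c3_nt.QuotientsUniform

open Finset

/-- `v > 1` is a product of at most `r` primes, all of them larger than `y` -/
def AlmostN (r : ℕ) (y : ℝ) (v : ℕ) : Prop :=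
  1 < v ∧ v.primeFactorsList.length ≤ r ∧ ∀ q : ℕ, q.Prime → q ∣ v → y < q

/-- `ω(p)`: the number of the zeros of `x (N - m x) (x ^ 2 - 2)` modulo `p` -/
def omega (N m p : ℕ) : ℕ :=
  ((range p).filter (fun x : ℕ => (p : ℤ) ∣ (x : ℤ) * ((N : ℤ) - m * x) * ((x : ℤ) ^ 2 - 2))).card

/-- the product of `1 - ω(p) / p` over the primes `p ≤ n` -/
noncomputable def V (N m n : ℕ) : ℝ := ∏ p ∈ (Icc 1 n).filter Nat.Prime, (1 - (omega N m p : ℝ) / p)

/-- the pair `(m, n)` is admissible -/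
def Admissible (m n : ℕ) : Prop := 1 ≤ m ∧ 2 * m + 1 < n ∧ (m = 1 ∧ n % 2 = 0 ∨ m = 3 ∧ n % 6 ≠ 1 ∨ m = 2 ∨ 4 ≤ m)

/-- for `p = n - r - m q`: `n - p = r + m q`, `⌊(n - p) / m⌋ = q`; `q` is prime and `p` is a product of at most two
primes `> n ^ (1/9)` (`v = 0`), resp. `p` is prime and `q` is a product of at most two primes `> n ^ (1/9)` (`v = 1`);
`p` and `q` are products of at most `t` primes, `q ^ 2 - 2` is a product of at most `2 t` primes, all `> n ^ (1/t)` -/
def Good (v : Fin 2) (t n r m q : ℕ) : Prop :=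
  n - (n - r - m * q) = r + m * q ∧ (n - (n - r - m * q)) / m = q ∧
    (if v = 0 then q.Prime ∧ AlmostN 2 ((n : ℝ) ^ (1 / 9 : ℝ)) (n - r - m * q)
      else (n - r - m * q).Prime ∧ AlmostN 2 ((n : ℝ) ^ (1 / 9 : ℝ)) q) ∧
    AlmostN t ((n : ℝ) ^ (1 / (t : ℝ))) (n - r - m * q) ∧ AlmostN t ((n : ℝ) ^ (1 / (t : ℝ))) q ∧
    AlmostN (2 * t) ((n : ℝ) ^ (1 / (t : ℝ))) (q ^ 2 - 2)

open Classical in
/-- the good quotients of `(A, B]` -/
noncomputable def GoodQ (v : Fin 2) (t n r m A B : ℕ) : Finset ℕ := (Ioc A B).filter (fun q : ℕ => Good v t n r m q)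

/-- the terms `a, a + b, ..., a + (s - 1) b` of the progression `z = (a, b)` -/
def terms (s : ℕ) (z : ℕ × ℕ) : Finset ℕ := (range s).image (fun i => z.1 + i * z.2)

theorem result (M : ℕ) : ∃ t : ℕ, 1 ≤ t ∧ ∃ κ : ℝ, 0 < κ ∧ ∀ (s k : ℕ) (θ δ : ℝ), 1 ≤ s → 0 < θ → 0 < δ →
    ∃ c n₀ : ℕ, ∀ m n : ℕ, m ≤ M → n₀ ≤ n → Admissible m n →
      (∃ r, r < m ∧ (n - r).Coprime m ∧ (n - r + m) % 2 = 1) ∧
      ∀ r, r < m → (n - r).Coprime m → (n - r + m) % 2 = 1 →
        κ / Real.log n ^ 4 ≤ V (n - r) m n ∧ ∀ (v : Fin 2) (A B : ℕ), m * B ≤ n - r → θ * n ≤ (B : ℝ) - A →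
          κ * ((B : ℝ) - A) * V (n - r) m n ≤ ((GoodQ v t n r m A B).card : ℝ) ∧
          ∀ χ : ℕ → Fin k, ∃ P : Finset (ℕ × ℕ),
            (∀ z ∈ P, 1 ≤ z.2 ∧ (z.2 : ℝ) ≤ Real.log n ^ c ∧
              ∀ l < s, z.1 + l * z.2 ∈ GoodQ v t n r m A B ∧ χ (z.1 + l * z.2) = χ z.1) ∧
            (P : Set (ℕ × ℕ)).PairwiseDisjoint (terms s) ∧
            (((GoodQ v t n r m A B \ P.biUnion (terms s)).card : ℕ) : ℝ) ≤ δ * ((B : ℝ) - A) * V (n - r) m n :=
  Pool.Agent.X32.Uni.quoU M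

end Pool.Agent.Results.MP_4011c3_nt.QuotientsUniform
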